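import Mathlib
import Pool.Agent.MP_6b3410_lc.H91.Spec
import Pool.Agent.MP_6b3410_lc.T26.Spec

/-!
Statements of the steps of the trade-off between size and the number of non-monotone gates.
-/

namespace Pool.Agent.MP_6b3410_lc.N91

open Classical Finset

/-- the input in which the slot `e` carries the variable or the constant `π e` -/
def sub {V ι : Type} (π : V → ι ⊕ Bool) (w : ι → Bool) : V → Bool := fun e => Sum.elim w id (π e)

/-- `y` satisfies all clauses -/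
def Sat {Y K : Type} (cls : K → Finset (Y × Bool)) (y : Y → Bool) : Prop :=
  ∀ κ, ∃ t ∈ cls κ, y t.1 = t.2

/-- Row Chain: from a circuit with few non-monotone gates for a disjunction over many blocks to a
monotone circuit for one block -/
def ChainStmt : Prop :=
  ∀ (V B ι : Type) [Fintype B] (π : V → (B × ι) ⊕ Bool) (f : (ι → Bool) → Prop) (s : ℕ)
    (G : Fin s → Bool × Bool → Bool) (a b : Fin s → V ⊕ Fin s) (o : Fin s) (T : Finset (Fin s)),
    (∀ g j : Fin s, (a g = Sum.inr j → j < g) ∧ (b g = Sum.inr j → j < g)) →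
    (∀ g, g ∉ T → Monotone (G g)) → ¬ f (fun _ => false) → 3 * 2 ^ T.card < Fintype.card B →
    (∀ (z : B × ι → Bool) (val : Fin s → Bool),
      (∀ g, val g = G g (Sum.elim (sub π z) val (a g), Sum.elim (sub π z) val (b g))) →
      (val o = true ↔ ∃ γ, f fun i => z (γ, i))) →
    ∃ (s' : ℕ) (π' : V → ι ⊕ Bool) (G' : Fin s' → Bool × Bool → Bool)
      (c d : Fin s' → V ⊕ Fin s') (o' : Fin s'), s' ≤ s + 2 * T.card + 2 ∧
      (∀ g j : Fin s', (c g = Sum.inr j → j < g) ∧ (d g = Sum.inr j → j < g)) ∧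
      (∀ g, Monotone (G' g)) ∧
      ∀ (w : ι → Bool) (val : Fin s' → Bool),
        (∀ g, val g = G' g (Sum.elim (sub π' w) val (c g), Sum.elim (sub π' w) val (d g))) →
        (val o' = true ↔ f w)

/-- Row Net: a formula that guesses a point `x`, an upper bound `α` for its hits and a shift `z`,
and activates the shifted positions by a barrel shifter -/
def NetStmt : Prop :=
  ∀ (n v m u D l : ℕ) [NeZero D] (N : Fin n → Finset (Fin v)) (a : Fin n → Fin v → Fin m)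
    (c : Bool → Fin n × Bool → Fin u × ZMod D), (∀ i, (N i).card ≤ 12) → v * m ≤ n → v ≤ n →
    D ≤ 2 ^ l →
    ∃ (Y K : Type) (_ : Fintype Y) (_ : Fintype K) (cls : K → Finset (Y × Bool))
      (act : Bool → Fin u × ZMod D → Y),
      2 * Fintype.card Y + ∑ κ, (cls κ).card + Fintype.card K ≤
        32 * n + 2 * l + 20 * (l + 1) * (u * D) ∧
      (∀ y : Y → Bool, Sat cls y → ∃ (z : ZMod D) (α : Fin n → Bool),
        (∃ x, ∀ i, H91.Hit N a i x → α i = true) ∧
        ∀ s i, y (act s ((c s (i, α i)).1, z + (c s (i, α i)).2)) = true) ∧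
      ∀ (z : ZMod D) (α : Fin n → Bool), (∃ x, ∀ i, H91.Hit N a i x → α i = true) →
        ∃ y : Y → Bool, Sat cls y ∧
          ∀ s p, y (act s p) = true → ∃ i, p = ((c s (i, α i)).1, z + (c s (i, α i)).2)

/-- Row Key: the disjunction over the groups is a monotone projection of Hamiltonicity -/
def KeyStmt : Prop :=
  ∀ (M n Q W : ℕ) (P Z Y K : Type) [Fintype P] [Fintype Z] [Fintype Y] [Fintype K]
    (cls : K → Finset (Y × Bool)) (act : Bool → P → Y) (lr : Bool → Z → Fin n × Bool → P)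
    (R : (Fin n → Bool) → Prop),
    (∀ γ γ' i i', lr false γ i = lr false γ' i' → lr true γ i = lr true γ' i' → γ = γ' ∧ i = i') →
    (∀ γ γ' i i' j, lr false γ i = lr false γ' j → lr true γ i' = lr true γ' j → i = i') →
    (∀ α α', (∀ i, α i = true → α' i = true) → R α → R α') →
    (∀ y : Y → Bool, Sat cls y → ∃ (γ : Z) (α : Fin n → Bool), R α ∧
      ∀ s i, y (act s (lr s γ (i, α i))) = true) →
    (∀ (γ : Z) (α : Fin n → Bool), R α → ∃ y : Y → Bool, Sat cls y ∧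
      ∀ s p, y (act s p) = true → ∃ i, p = lr s γ (i, α i)) →
    1 ≤ Q → 2 * Fintype.card Y + ∑ κ, (cls κ).card + Fintype.card K ≤ W →
    9 * W + 54 * Q + 42 * (Fintype.card P * Q) + 3 * n + 9 ≤ M →
    ∃ π : H19.Edge M → ((Z × (Bool → Fin Q)) × Fin n) ⊕ Bool,
      ∀ z : (Z × (Bool → Fin Q)) × Fin n → Bool, H19.Ham (sub π z) ↔ ∃ γ, R fun i => z (γ, i)

/-- Row NumA: the sizes of the gadget -/
def NumAStmt : Prop :=
  ∀ n k τ M : ℕ, 1 ≤ k → M ≤ n → M * 2 ^ τ ≤ n ^ 2 →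
    6000000 * Real.exp (8 * √(min ((τ : ℝ) + 1) (Real.log M))) * k ≤ M →
    ∃ a u l Q : ℕ, 1 ≤ a ∧ 1 ≤ Q ∧ 2 * k ≤ u * rothNumberNat a ∧ 2 * a ≤ 2 ^ l ∧
      3 * 2 ^ τ < 2 * a * Q ^ 2 ∧
      9 * (32 * k + 2 * l + 20 * (l + 1) * (u * (2 * a))) + 54 * Q + 42 * (u * (2 * a) * Q) +
        3 * k + 9 ≤ n

/-- Row NumB: the asymptotics -/
def NumBStmt : Prop :=
  ∀ C M₀ : ℕ, ∃ C' M₁ : ℕ, ∀ M τ : ℕ, M₁ ≤ M → ∃ M' : ℕ, M₀ ≤ M' ∧
    20000 * Real.exp (8 * √(min ((τ : ℝ) + 1) (Real.log M))) * M' ≤ M ∧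
    5 * Real.exp (M / (Real.exp (C' * √(min (τ : ℝ) (Real.log M))) * Real.log M ^ C')) ≤
      Real.exp (M' / Real.log M' ^ C)

end Pool.Agent.MP_6b3410_lc.N91
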