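import Mathlib
import Pool.Agent.MP_6b3410_lc.N91.Spec
import Pool.Agent.MP_6b3410_lc.H19.Neg

/-!
The chain lemma: few non-monotone gates do not help for a disjunction over many blocks.
-/

namespace Pool.Agent.MP_6b3410_lc.N91

open Classical Finset H19

namespace ChainR

variable {V : Type}

/-- the circuit is acyclic -/
def Ac {s : ℕ} (a b : Fin s → V ⊕ Fin s) : Prop :=
  ∀ g j : Fin s, (a g = Sum.inr j → j < g) ∧ (b g = Sum.inr j → j < g)

lemma elim_map {s s' : ℕ} (x : V → Bool) (val : Fin s' → Bool) (e : Fin s → Fin s')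
    (p : V ⊕ Fin s) : Sum.elim x val (p.map id e) = Sum.elim x (val ∘ e) p := by
  cases p <;> rfl

lemma lt_snoc {s : ℕ} {a : Fin s → V ⊕ Fin s} (ha : ∀ g j, a g = Sum.inr j → j < g)
    (p : V ⊕ Fin s) (g j : Fin (s + 1))
    (h : (Fin.lastCases (p.map id Fin.castSucc) (fun g => (a g).map id Fin.castSucc) g :
      V ⊕ Fin (s + 1)) = Sum.inr j) : j < g := by
  induction g using Fin.lastCases with
  | last =>
    rw [Fin.lastCases_last] at h
    rcases p with i | i
    · simp at h
    · simp only [Sum.map_inr, Sum.inr.injEq] at h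
      rw [← h]; exact Fin.castSucc_lt_last i
  | cast g =>
    rw [Fin.lastCases_castSucc] at h
    rcases hg : a g with i | i
    · simp [hg] at h
    · simp only [hg, Sum.map_inr, Sum.inr.injEq] at h
      rw [← h]; exact Fin.castSucc_lt_castSucc_iff.2 (ha g i hg)

/-- one more gate -/
lemma snoc {s : ℕ} (G : Fin s → Bool → Bool → Bool) (a b : Fin s → V ⊕ Fin s) (hac : Ac a b)
    (hG : ∀ g, Mon2 (G g)) (G0 : Bool → Bool → Bool) (h0 : Mon2 G0) (p q : V ⊕ Fin s) :
    ∃ (G' : Fin (s + 1) → Bool → Bool → Bool) (c d : Fin (s + 1) → V ⊕ Fin (s + 1)),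
      Ac c d ∧ (∀ g, Mon2 (G' g)) ∧ ∀ x val, Sol G' c d x val →
        Sol G a b x (val ∘ Fin.castSucc) ∧ val (Fin.last s) =
          G0 (Sum.elim x (val ∘ Fin.castSucc) p) (Sum.elim x (val ∘ Fin.castSucc) q) := by
  refine ⟨Fin.lastCases G0 G,
    Fin.lastCases (p.map id Fin.castSucc) (fun g => (a g).map id Fin.castSucc),
    Fin.lastCases (q.map id Fin.castSucc) (fun g => (b g).map id Fin.castSucc),
    fun g j => ⟨lt_snoc (fun g j => (hac g j).1) p g j, lt_snoc (fun g j => (hac g j).2) q g j⟩,
    fun g => ?_, fun x val h => ⟨fun g => ?_, ?_⟩⟩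
  · induction g using Fin.lastCases with
    | last => simpa using h0
    | cast g => simpa using hG g
  · have := h g.castSucc
    simp only [Fin.lastCases_castSucc, elim_map] at this
    exact this
  · have := h (Fin.last s)
    simpa only [Fin.lastCases_last, elim_map] using this

/-- the disjunction of a list of nodes -/
lemma append {s : ℕ} (G : Fin s → Bool → Bool → Bool) (a b : Fin s → V ⊕ Fin s) (hac : Ac a b)
    (hG : ∀ g, Mon2 (G g)) (v0 : V ⊕ Fin s) (l : List (V ⊕ Fin s)) :
    ∃ (s' : ℕ) (G' : Fin s' → Bool → Bool → Bool) (c d : Fin s' → V ⊕ Fin s') (o' : Fin s')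
      (e : Fin s → Fin s'), s' = s + l.length + 1 ∧ Ac c d ∧ (∀ g, Mon2 (G' g)) ∧
      ∀ x val, Sol G' c d x val → Sol G a b x (val ∘ e) ∧
        (val o' = true ↔ ∃ z ∈ l, Sum.elim x (val ∘ e) z = true) := by
  induction l with
  | nil =>
    obtain ⟨G', c, d, h1, h2, h3⟩ :=
      snoc G a b hac hG (fun _ _ => false) (fun _ _ _ _ _ _ h => h) v0 v0
    exact ⟨s + 1, G', c, d, Fin.last s, Fin.castSucc, rfl, h1, h2, fun x val h =>
      ⟨(h3 x val h).1, by simp [(h3 x val h).2]⟩⟩
  | cons z l ih =>
    obtain ⟨s', G', c, d, o', e, h0, h1, h2, h3⟩ := ih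
    obtain ⟨G'', c', d', k1, k2, k3⟩ := snoc G' c d h1 h2 (fun x y => x || y)
      (fun x x' y y' hx hy h => by
        rw [Bool.or_eq_true] at h ⊢
        exact h.imp hx hy) (z.map id e) (Sum.inr o')
    refine ⟨s' + 1, G'', c', d', Fin.last s', Fin.castSucc ∘ e, by rw [h0, List.length_cons]; ring,
      k1, k2, fun x val h => ?_⟩
    obtain ⟨k4, k5⟩ := k3 x val h
    obtain ⟨k6, k7⟩ := h3 x _ k4
    refine ⟨k6, ?_⟩
    rw [k5, Bool.or_eq_true, elim_map, Sum.elim_inr, k7]
    simp only [List.mem_cons, exists_eq_or_imp]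
    rfl

end ChainR

open ChainR in
theorem chain : ChainStmt := by
  intro V B ι _ π f s G₀ a b o T hac hT hf0 hB hF
  by_contra hcon
  let G : Fin s → Bool → Bool → Bool := fun g x y => G₀ g (x, y)
  have hGm : ∀ S g, Mon2 (fixG G T S g) := by
    intro S g
    unfold fixG
    split_ifs with h
    · exact fun _ _ _ _ _ _ h => h
    · exact fun x x' y y' hx hy h' => Bool.le_iff_imp.1
        (hT g h (show (x, y) ≤ (x', y') from ⟨Bool.le_iff_imp.2 hx, Bool.le_iff_imp.2 hy⟩)) h'
  choose val hval using fun (S : Finset (Fin s)) (z : B × ι → Bool) =>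
    exists_sol hac (fixG G T S) (sub π z)
  let src : Finset (Fin s) → (B × ι → Bool) → V ⊕ Fin s → Bool := fun S z p =>
    Sum.elim (sub π z) (val S z) p
  have hsm : ∀ S p (z z' : B × ι → Bool), (∀ q, z q = true → z' q = true) →
      src S z p = true → src S z' p = true := fun S p z z' h =>
    sol_mono hac (hGm S) (fun e => by
      unfold sub
      cases π e
      · exact h _
      · exact id) (hval S z) (hval S z') p
  let c : Bool → Fin s → V ⊕ Fin s := fun d => if d then a else b
  let M : Finset (Fin s) × Option Bool → (B × ι → Bool) → Prop := fun i z =>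
    match i.2 with
    | none => src i.1 z (Sum.inr o) = true
    | some d => ∃ g ∈ i.1, (∀ j ∈ i.1, j ≤ g) ∧ src i.1 z (c d g) = true
  have hMm : ∀ i (z z' : B × ι → Bool), (∀ q, z q = true → z' q = true) → M i z → M i z' := by
    rintro ⟨S, _ | d⟩ z z' h
    · exact hsm S _ z z' h
    · rintro ⟨g, h1, h2, h3⟩
      exact ⟨g, h1, h2, hsm S _ z z' h h3⟩
  let H := T.powerset ×ˢ (univ : Finset (Option Bool))
  -- one step of the chain
  have step : ∀ (z : B × ι → Bool) (γ : B), (∀ γ', ¬ f fun i => z (γ', i)) →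
      (∀ i, z (γ, i) = false) → ∃ w : ι → Bool, ¬ f w ∧
        ∃ i ∈ H, ¬ M i z ∧ M i fun q => if q.1 = γ then w q.2 else z q := by
    intro z γ hz hγ
    let up : (ι → Bool) → B × ι → Bool := fun w q => if q.1 = γ then w q.2 else z q
    have hup : ∀ w q, z q = true → up w q = true := by
      rintro w ⟨γ', i⟩ h
      by_cases e : γ' = γ
      · rw [e, hγ] at h; exact absurd h (by simp)
      · simp only [up, if_neg e, h]
    obtain ⟨u, hu⟩ := exists_sol hac G (sub π z)
    set S := T.filter fun g => u g = true with hS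
    have hu' : Sol (fixG G T S) a b (sub π z) u := by
      intro g
      unfold fixG
      split_ifs with h
      · simp [hS, h]
      · exact hu g
    have huv : val S z = u := funext fun g => sol_agree hac (hval S z) hu' g fun _ _ => rfl
    let l₀ : List (V ⊕ Fin s) := Sum.inr o :: (T.toList.map a ++ T.toList.map b)
    have hl₀ : ∀ p, p ∈ l₀ ↔ p = Sum.inr o ∨ ∃ g ∈ T, ∃ d, p = c d g := by
      intro p
      simp only [l₀, List.mem_cons, List.mem_append, List.mem_map, mem_toList, Bool.exists_bool, c]
      constructor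
      · rintro (h | ⟨g, h, rfl⟩ | ⟨g, h, rfl⟩)
        exacts [.inl h, .inr ⟨g, h, .inr rfl⟩, .inr ⟨g, h, .inl rfl⟩]
      · rintro (h | ⟨g, h, rfl | rfl⟩)
        exacts [.inl h, .inr (.inr ⟨g, h, rfl⟩), .inr (.inl ⟨g, h, rfl⟩)]
    let l := l₀.filter fun p => !src S z p
    have hl : ∀ p, p ∈ l ↔ p ∈ l₀ ∧ ¬ src S z p = true := by
      intro p; simp [l]
    have hlen : l.length ≤ 2 * T.card + 1 :=
      (List.length_filter_le _ _).trans (by simp [l₀]; omega)
    -- every positive block flips a node of the list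
    have hpos : ∀ w, f w → ∃ p ∈ l, src S (up w) p = true := by
      intro w hw
      by_contra hno
      have e : ∀ p ∈ l₀, src S (up w) p = src S z p := by
        intro p hp
        by_cases h : src S z p = true
        · rw [h, hsm S p _ _ (hup w) h]
        · have h' : ¬ src S (up w) p = true := fun h' => hno ⟨p, (hl p).2 ⟨hp, h⟩, h'⟩
          rw [Bool.not_eq_true] at h h'
          rw [h, h']
      have hsol : Sol G a b (sub π (up w)) (val S (up w)) := by
        intro g
        by_cases h : g ∈ T
        · have e1 := e (a g) ((hl₀ _).2 (Or.inr ⟨g, h, true, rfl⟩))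
          have e2 := e (b g) ((hl₀ _).2 (Or.inr ⟨g, h, false, rfl⟩))
          simp only [src] at e1 e2
          rw [e1, e2, huv, ← hu g, hval S (up w) g, hu' g]
          simp only [fixG, if_pos h]
        · have := hval S (up w) g
          simpa only [fixG, if_neg h] using this
      have e3 := (hF _ _ hsol).2 ⟨γ, by simpa [up] using hw⟩
      have e4 := e _ ((hl₀ _).2 (Or.inl rfl))
      simp only [src, Sum.elim_inr] at e4
      rw [e3, huv] at e4
      obtain ⟨γ', h⟩ := (hF z u hu).1 e4.symm
      exact hz γ' h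
    -- the monotone circuit does not compute `f`
    have hneg : ∃ w, ¬ f w ∧ ∃ p ∈ l, src S (up w) p = true := by
      by_contra hno
      obtain ⟨s', G', c', d', o', e, k0, k1, k2, k3⟩ :=
        append (fixG G T S) a b hac (hGm S) (Sum.inr o) l
      let π' : V → ι ⊕ Bool := fun e =>
        Sum.elim (fun q => if q.1 = γ then Sum.inl q.2 else Sum.inr (z q)) Sum.inr (π e)
      have hπ : ∀ w, sub π' w = sub π (up w) := fun w => funext fun e => by
        simp only [sub, π', up]
        rcases π e with q | t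
        · by_cases h : q.1 = γ <;> simp [h]
        · rfl
      refine hcon ⟨s', π', fun g p => G' g p.1 p.2, c', d', o', by omega, k1,
        fun g p p' h => Bool.le_iff_imp.2
          (k2 g _ _ _ _ (Bool.le_iff_imp.1 h.1) (Bool.le_iff_imp.1 h.2)), fun w v hv => ?_⟩
      obtain ⟨k4, k5⟩ := k3 (sub π' w) v hv
      rw [hπ] at k4 k5
      have k6 : v ∘ e = val S (up w) :=
        funext fun g => sol_agree hac k4 (hval S _) g fun _ _ => rfl
      rw [k5, k6]
      exact ⟨fun h => by_contra fun h' => hno ⟨w, h', h⟩, hpos w⟩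
    obtain ⟨w, hw, p, hp, hp''⟩ := hneg
    obtain ⟨hp, hp'⟩ := (hl p).1 hp
    refine ⟨w, hw, ?_⟩
    obtain rfl | ⟨g, hg, d, rfl⟩ := (hl₀ p).1 hp
    · exact ⟨(S, none), by simp [H, hS], hp', hp''⟩
    · set S' := insert g (S.filter fun j => j < g) with hS'
      have e : ∀ z', src S' z' (c d g) = src S z' (c d g) := by
        intro z'
        rcases h : c d g with i | j
        · rfl
        · have hj : j < g := by
            cases d
            · exact (hac g j).2 h
            · exact (hac g j).1 h
          refine sol_agree hac (hval S' z') (hval S z') j fun i hi => ?_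
          have hi' : i < g := lt_of_le_of_lt hi hj
          simp [fixG, hS', hi', hi'.ne]
      have hmax : ∀ j ∈ S', j ≤ g := by
        intro j hj
        rcases mem_insert.1 hj with h | h
        · exact h.le
        · exact (mem_filter.1 h).2.le
      refine ⟨(S', some d), ?_, ?_, g, mem_insert_self _ _, hmax, (e _).trans hp''⟩
      · simp only [H, mem_product, mem_powerset, mem_univ, and_true]
        exact insert_subset hg ((filter_subset _ _).trans (filter_subset _ _))
      · rintro ⟨g', h1, h2, h3⟩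
        have : g' = g := le_antisymm (hmax g' h1) (h2 g (mem_insert_self _ _))
        subst this
        exact hp' ((e _).symm.trans h3)
  -- the chain
  have all : ∀ U : Finset B, ∃ z : B × ι → Bool, (∀ γ, ¬ f fun i => z (γ, i)) ∧
      (∀ γ, γ ∉ U → ∀ i, z (γ, i) = false) ∧ U.card ≤ (H.filter fun i => M i z).card := by
    intro U
    induction U using Finset.induction_on with
    | empty => exact ⟨fun _ => false, fun _ => hf0, fun _ _ _ => rfl, by simp⟩
    | insert γ U hγ ih =>
      obtain ⟨z, h1, h2, h3⟩ := ih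
      obtain ⟨w, hw, i, hi, k1, k2⟩ := step z γ h1 (h2 γ hγ)
      refine ⟨fun q => if q.1 = γ then w q.2 else z q, fun γ' => ?_, fun γ' hγ' j => ?_, ?_⟩
      · by_cases e : γ' = γ
        · simpa [e] using hw
        · simpa [e] using h1 γ'
      · rw [mem_insert, not_or] at hγ'
        simp only [if_neg hγ'.1, h2 γ' hγ'.2]
      · rw [card_insert_of_notMem hγ]
        refine Nat.succ_le_of_lt (h3.trans_lt (card_lt_card ⟨fun j hj => ?_, fun h => ?_⟩))
        · refine mem_filter.2 ⟨(mem_filter.1 hj).1, hMm j _ _ ?_ (mem_filter.1 hj).2⟩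
          rintro ⟨γ', i'⟩ h
          by_cases e : γ' = γ
          · rw [e, h2 γ hγ] at h; exact absurd h (by simp)
          · simp only [if_neg e, h]
        · exact k1 (mem_filter.1 (h (mem_filter.2 ⟨hi, k2⟩))).2
  obtain ⟨z, -, -, h⟩ := all univ
  have h' := h.trans (card_filter_le _ _)
  simp only [H, card_univ, card_product, card_powerset, Fintype.card_option,
    Fintype.card_bool] at h'
  omega

end Pool.Agent.MP_6b3410_lc.N91
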