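import Mathlib
import Pool.Agent.MP_6b3410_lc.N91.Spec

/-!
Assembly of the trade-off from the module statements.
-/

namespace Pool.Agent.MP_6b3410_lc.N91

open Classical Finset

/-- roles placed on a set without three-term progressions -/
lemma exists_role (k u a : ℕ) (h : 2 * k ≤ u * rothNumberNat a) :
    ∃ r : Fin k × Bool → Fin u × ZMod (2 * a), Function.Injective r ∧
      ∀ p p' p'', (r p).2 + (r p'').2 = (r p').2 + (r p').2 → (r p).2 = (r p').2 := by
  obtain ⟨S, hS, hc, hf⟩ := rothNumberNat_spec a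
  obtain ⟨e⟩ : Nonempty (Fin k × Bool ↪ Fin u × S) :=
    Function.Embedding.nonempty_of_card_le (by simpa [hc, mul_comm] using h)
  have hlt : ∀ x : S, (x : ℕ) < a := fun x => mem_range.1 (hS x.2)
  have key : ∀ x y : ℕ, x < 2 * a → y < 2 * a → (x : ZMod (2 * a)) = y → x = y := by
    intro x y hx hy hxy
    have := (ZMod.natCast_eq_natCast_iff' x y (2 * a)).1 hxy
    rwa [Nat.mod_eq_of_lt hx, Nat.mod_eq_of_lt hy] at this
  refine ⟨fun p => ((e p).1, (((e p).2 : ℕ) : ZMod (2 * a))), fun p p' hp => ?_,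
    fun p p' p'' hp => ?_⟩
  · simp only [Prod.mk.injEq] at hp
    have h1 := hlt (e p).2
    have h2 := hlt (e p').2
    exact e.injective (Prod.ext hp.1 (Subtype.ext (key _ _ (by omega) (by omega) hp.2)))
  · have h1 := hlt (e p).2
    have h2 := hlt (e p').2
    have h3 := hlt (e p'').2
    simp only [← Nat.cast_add] at hp
    have := hf (e p).2.2 (e p').2.2 (e p'').2.2 (key _ _ (by omega) (by omega) hp)
    simp only [this]

theorem glue (hC : H91.CircStmt) (hH : H91.HyperStmt) (hP : H91.PatStmt) (hN : H91.ParStmt)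
    (hch : ChainStmt) (hnet : NetStmt) (hkey : KeyStmt) (hA : NumAStmt) (hB : NumBStmt) :
    ∃ C M₀ : ℕ, ∀ n M : ℕ, M₀ ≤ M → M ≤ n →
      ∀ (s : ℕ) (G : Fin s → Bool × Bool → Bool)
        (a b : Fin s → ({p : Fin n × Fin n // p.1 < p.2} ⊕ Fin s)) (o : Fin s)
        (T : Finset (Fin s)),
        (∀ g j : Fin s, (a g = Sum.inr j → j < g) ∧ (b g = Sum.inr j → j < g)) →
        (∀ x : {p : Fin n × Fin n // p.1 < p.2} → Bool, ∀ val : Fin s → Bool,
          (∀ g : Fin s, val g = G g (Sum.elim x val (a g), Sum.elim x val (b g))) →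
          (val o = true ↔
            (SimpleGraph.fromRel
              (fun i j : Fin n => ∃ h : i < j, x ⟨(i, j), h⟩ = true)).IsHamiltonian)) →
        (∀ g : Fin s, g ∉ T → Monotone (G g)) →
        M * 2 ^ T.card ≤ n ^ 2 →
        Real.exp (M / (Real.exp (C * √(min (T.card : ℝ) (Real.log M))) * Real.log M ^ C)) ≤
          (s : ℝ) := by
  obtain ⟨C, M₀, hM⟩ := hN
  obtain ⟨C', M₁, hM₁⟩ := hB C M₀
  refine ⟨C', M₁, fun n M h1 h2 s G a b o T hac hF hT h3 => ?_⟩
  obtain ⟨M', m1, m2, m3⟩ := hM₁ M T.card h1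
  obtain ⟨k, v, t, L, s1, p1, p2, p3, p4, p5, p6, p7, p8, p9, p10, p11, p12, p13, p14⟩ := hM M' m1
  obtain ⟨N, hd, he⟩ := hH k v (H91.cap s1) p1 p3 p7
  obtain ⟨pa, pb, hab⟩ := hP k v (t ^ 10) N (Nat.one_le_pow _ _ p2) hd p6
  have hok : H91.Ok (Fin (t ^ 10)) N (t : ℝ) L s1 :=
    ⟨by simp, hd, he, p8, by simpa using p9, by simpa using p10, p11, by exact_mod_cast p12,
      by simpa using (show (256 * k : ℝ) ≤ (t : ℝ) ^ s1 by exact_mod_cast p13),
      by simpa using p1.trans p3⟩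
  obtain ⟨a₀, u, l, Q, q1, q2, q3, q4, q5, q6⟩ := hA n k T.card M (p1.trans p3) h2 h3 (by
    refine le_trans ?_ m2
    have e1 : (300 : ℝ) * k ≤ M' := by exact_mod_cast p5
    have e2 := Real.exp_pos (8 * √(min ((T.card : ℝ) + 1) (Real.log M)))
    nlinarith)
  obtain ⟨r, hr, hr3⟩ := exists_role k u a₀ q3
  have : NeZero (2 * a₀) := ⟨by omega⟩
  let c : Bool → Fin k × Bool → Fin u × ZMod (2 * a₀) := fun s p =>
    ((r p).1, cond s ((r p).2 + (r p).2) (r p).2)
  obtain ⟨Y, K, _, _, cls, act, n1, n2, n3⟩ := hnet k v (t ^ 10) u (2 * a₀) l N pa c hd p4 p3 q4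
  obtain ⟨π, hπ⟩ := hkey n k Q _ (Fin u × ZMod (2 * a₀)) (ZMod (2 * a₀)) Y K cls act
    (fun s z p => ((c s p).1, z + (c s p).2)) (fun α => ∃ x, ∀ i, H91.Hit N pa i x → α i = true)
    (fun γ γ' i i' e1 e2 => by
      simp only [c, cond_false, cond_true, Prod.mk.injEq] at e1 e2
      have e3 : (r i).2 = (r i').2 := by linear_combination e2.2 - e1.2
      exact ⟨by linear_combination e1.2 - e3, hr (Prod.ext e1.1 e3)⟩)
    (fun γ γ' i i' j e1 e2 => by
      simp only [c, cond_false, cond_true, Prod.mk.injEq] at e1 e2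
      exact hr (Prod.ext (e1.1.trans e2.1.symm)
        (hr3 i i' j (by linear_combination e1.2 - e2.2))))
    (fun α α' h ⟨x, hx⟩ => ⟨x, fun i hi => h i (hx i hi)⟩) n2 n3 q2 n1 (by simpa using q6)
  obtain ⟨s', π', G', c', d', o', k1, k2, k3, k4⟩ := hch _ _ _ π
    (fun α => ∃ x, ∀ i, H91.Hit N pa i x → α i = true) s G a b o T hac hT
    (by
      rintro ⟨x, hx⟩
      obtain ⟨i, hi, -⟩ := hab x x
      exact absurd (hx i hi) (by simp))
    (by simpa using q5) fun z val hval => (hF _ val hval).trans (hπ z)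
  have k5 := hC _ _ _ N t L s1 hok pa pb hab _ π' s' G' c' d' o' k2 k3 k4
  have hs : 1 ≤ s := Nat.succ_le_of_lt (lt_of_le_of_lt (Nat.zero_le _) o.2)
  have hTs : T.card ≤ s := (card_le_univ T).trans (by simp)
  have k6 : (s' : ℝ) ≤ 5 * s := by exact_mod_cast (by omega : s' ≤ 5 * s)
  linarith

end Pool.Agent.MP_6b3410_lc.N91
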