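import Pool.Agent.MP_6b3410_lc.N91.Spec

/-!
The disjunction over the groups is a monotone projection of Hamiltonicity.
-/

namespace Pool.Agent.MP_6b3410_lc.N91

open Classical Finset

namespace KeyR

variable {n Q : ℕ} {P Z Y K : Type}

/-- the literals of a clause -/
noncomputable def cl2 (Q : ℕ) (cls : K → Finset (Y × Bool)) (act : Bool → P → Y) :
    K ⊕ Bool ⊕ Bool × P × Fin Q → Finset ((Y ⊕ Bool × Fin Q) × Bool)
  | .inl κ => (cls κ).image fun t => (.inl t.1, t.2)
  | .inr (.inl s) => univ.image fun ξ => (.inr (s, ξ), true)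
  | .inr (.inr p) => {(.inl (act p.1 p.2.1), false), (.inr (p.1, p.2.2), false)}

/-- the node of an arc on the side `s` -/
def nd (K : Type) (lr : Bool → Z → Fin n × Bool → P) (s : Bool)
    (p : (Z × (Bool → Fin Q)) × Fin n × Bool) : K ⊕ Bool ⊕ Bool × P × Fin Q :=
  .inr (.inr (s, lr s p.1.1 p.2, p.1.2 s))

variable {cls : K → Finset (Y × Bool)} {act : Bool → P → Y} {lr : Bool → Z → Fin n × Bool → P}
  {R : (Fin n → Bool) → Prop}

lemma nd_eq {s s' : Bool} {p : (Z × (Bool → Fin Q)) × Fin n × Bool} {x : P} {ξ : Fin Q} :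
    nd K lr s p = .inr (.inr (s', x, ξ)) ↔ s = s' ∧ lr s p.1.1 p.2 = x ∧ p.1.2 s = ξ := by
  simp [nd]

lemma sum_card [Fintype P] [Fintype K] : ∑ κ, (cl2 Q cls act κ).card ≤
    ∑ κ, (cls κ).card + 2 * Q + 4 * (Fintype.card P * Q) := by
  have h1 : ∑ κ : K, (cl2 Q cls act (.inl κ)).card ≤ ∑ κ, (cls κ).card :=
    sum_le_sum fun _ _ => card_image_le
  have h2 : ∑ s : Bool, (cl2 Q cls act (.inr (.inl s))).card ≤ 2 * Q :=
    (sum_le_card_nsmul _ _ Q fun p _ => card_image_le.trans (by simp)).trans (by simp)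
  have h4 : ∑ p : Bool × P × Fin Q, (cl2 Q cls act (.inr (.inr p))).card ≤
      4 * (Fintype.card P * Q) :=
    (sum_le_card_nsmul _ _ 2 fun p _ => card_le_two).trans (by simp; nlinarith)
  rw [Fintype.sum_sum_type, Fintype.sum_sum_type]
  omega

lemma core
    (h2 : ∀ γ γ' i i', lr false γ i = lr false γ' i' → lr true γ i = lr true γ' i' →
      γ = γ' ∧ i = i')
    (h3 : ∀ γ γ' i i' j, lr false γ i = lr false γ' j → lr true γ i' = lr true γ' j → i = i')
    (hs : ∀ y : Y → Bool, Sat cls y → ∃ (γ : Z) (α : Fin n → Bool), R α ∧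
      ∀ s i, y (act s (lr s γ (i, α i))) = true)
    (hc : ∀ (γ : Z) (α : Fin n → Bool), R α → ∃ y : Y → Bool, Sat cls y ∧
      ∀ s p, y (act s p) = true → ∃ i, p = lr s γ (i, α i))
    (on : (Z × (Bool → Fin Q)) × Fin n × Bool → Prop) :
    (∃ (y : Y ⊕ Bool × Fin Q → Bool) (p : Fin n → (Z × (Bool → Fin Q)) × Fin n × Bool),
      Function.Injective (fun i => nd K lr false (p i)) ∧
      Function.Injective (fun i => nd K lr true (p i)) ∧ (∀ i, on (p i)) ∧
      ∀ κ, (∀ i, nd K lr false (p i) ≠ κ) → (∀ i, nd K lr true (p i) ≠ κ) →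
        ∃ t ∈ cl2 Q cls act κ, y t.1 = t.2) ↔
    ∃ (g : Z × (Bool → Fin Q)) (α : Fin n → Bool), (∀ i, on (g, i, α i)) ∧ R α := by
  have lr_inj : ∀ s γ, Function.Injective (lr s γ) := fun s γ u u' h => by
    cases s
    · exact h3 γ γ u u' u' h rfl
    · exact (h3 γ γ u' u u' rfl h).symm
  constructor
  · rintro ⟨y, p, -, -, hon, h⟩
    obtain ⟨γ, α, hR, k3⟩ := hs (fun t => y (.inl t)) fun κ => by
      obtain ⟨_, ht, k1⟩ := h (.inl κ) (by simp [nd]) (by simp [nd])
      obtain ⟨t, h1, rfl⟩ := mem_image.1 ht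
      exact ⟨t, h1, k1⟩
    have k2 : ∀ s, ∃ ξ, y (.inr (s, ξ)) = true := fun s => by
      obtain ⟨_, hξ, k2⟩ := h (.inr (.inl s)) (by simp [nd]) (by simp [nd])
      obtain ⟨ξ, -, rfl⟩ := mem_image.1 hξ
      exact ⟨ξ, k2⟩
    choose ξ k2 using k2
    have k4 : ∀ s i, ∃ k, lr s (p k).1.1 (p k).2 = lr s γ (i, α i) ∧ (p k).1.2 s = ξ s := by
      intro s i
      by_contra hc
      have hn : ∀ s' k, nd K lr s' (p k) ≠ .inr (.inr (s, lr s γ (i, α i), ξ s)) :=
        fun s' k e => by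
          obtain ⟨rfl, e⟩ := nd_eq.1 e
          exact hc ⟨k, e⟩
      obtain ⟨u, hu, k4⟩ := h _ (hn false) (hn true)
      simp only [cl2, mem_insert, mem_singleton] at hu
      rcases hu with rfl | rfl
      · exact absurd ((k3 s i).symm.trans k4) (by simp)
      · exact absurd ((k2 s).symm.trans k4) (by simp)
    choose σ k4 k5 using k4
    have k6 : Function.Surjective (σ true) := Finite.surjective_of_injective fun i i' e =>
      congrArg Prod.fst (lr_inj true γ ((k4 true i).symm.trans (e ▸ k4 true i')))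
    refine ⟨(γ, ξ), α, fun i => ?_, hR⟩
    obtain ⟨i', hi⟩ := k6 (σ false i)
    have b1 := (k4 false i).symm
    have b2 := (k4 true i').symm
    have b3 := k5 true i'
    rw [hi] at b2 b3
    rw [← h3 _ _ _ _ _ b1 b2] at b2
    obtain ⟨b4, b5⟩ := h2 _ _ _ _ b1 b2
    have b6 : ξ = (p (σ false i)).1.2 := funext fun s => by
      cases s
      · exact (k5 false i).symm
      · exact b3.symm
    rw [b4, b5, b6]
    exact hon _
  · rintro ⟨⟨γ, ξ⟩, α, hon, hR⟩
    have inj : ∀ s, Function.Injective fun i => nd K lr s ((γ, ξ), i, α i) :=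
      fun s i i' e => congrArg Prod.fst (lr_inj s γ (nd_eq.1 e).2.1)
    obtain ⟨y, y1, y2⟩ := hc γ α hR
    refine ⟨Sum.elim y fun u => decide (u.2 = ξ u.1), fun i => ((γ, ξ), i, α i), inj false,
      inj true, hon, ?_⟩
    rintro (κ | s | ⟨s, x, ξ'⟩) c1 c2
    · obtain ⟨t, ht, e⟩ := y1 κ
      exact ⟨_, mem_image_of_mem _ ht, e⟩
    · exact ⟨_, mem_image_of_mem _ (mem_univ (ξ s)), by simp⟩
    · by_cases e1 : y (act s x) = true
      · refine ⟨_, mem_insert_of_mem (mem_singleton_self _), decide_eq_false fun e2 => ?_⟩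
        obtain ⟨i, e1⟩ := y2 s x e1
        cases s
        · exact c1 i (nd_eq.2 ⟨rfl, e1.symm, e2.symm⟩)
        · exact c2 i (nd_eq.2 ⟨rfl, e1.symm, e2.symm⟩)
      · exact ⟨_, mem_insert_self _ _, Bool.eq_false_iff.2 e1⟩

end KeyR

open KeyR in
theorem key (hL : T26.LookStmt) : KeyStmt := by
  intro M n Q W P Z Y K _ _ _ _ cls act lr R h2 h3 hR hs hc hQ hW hM
  have : Nonempty (Y ⊕ Bool × Fin Q) := ⟨.inr (true, ⟨0, hQ⟩)⟩
  obtain ⟨rail, rho, hri, hr⟩ := hL M n (Y ⊕ Bool × Fin Q) (K ⊕ Bool ⊕ Bool × P × Fin Q) _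
    (cl2 Q cls act) (nd K lr false) (nd K lr true) (fun p p' h => by simp [nd] at h)
    (fun p p' k1 k2 => by
      obtain ⟨-, k3, k4⟩ := nd_eq.1 k1
      obtain ⟨-, k5, k6⟩ := nd_eq.1 k2
      obtain ⟨k7, k8⟩ := h2 _ _ _ _ k3 k5
      refine Prod.ext (Prod.ext k7 (funext fun s => ?_)) k8
      cases s
      exacts [k4, k6]) (by
      have c1 := sum_card (Q := Q) (cls := cls) (act := act)
      have c2 : Fintype.card (Y ⊕ Bool × Fin Q) = Fintype.card Y + 2 * Q := by simp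
      have c3 : Fintype.card (K ⊕ Bool ⊕ Bool × P × Fin Q) =
          Fintype.card K + (2 + 2 * (Fintype.card P * Q)) := by simp
      omega)
  let π : H19.Edge M → ((Z × (Bool → Fin Q)) × Fin n) ⊕ Bool := fun x =>
    if h : ∃ p, rail p = x then
      (if h.choose.2.2 = true then Sum.inl (h.choose.1, h.choose.2.1) else Sum.inr true)
    else Sum.inr (rho x)
  have hpr : ∀ p, π (rail p) =
      if p.2.2 = true then Sum.inl (p.1, p.2.1) else Sum.inr true := fun p => by
    have h : ∃ p', rail p' = rail p := ⟨p, rfl⟩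
    simp only [π, dif_pos h, hri h.choose_spec]
  have hpr' : ∀ x, x ∉ Set.range rail → π x = Sum.inr (rho x) := fun x he => dif_neg he
  refine ⟨π, fun z => ?_⟩
  have hx : ∀ p, sub π z (rail p) = true ↔ (p.2.2 = true → z (p.1, p.2.1) = true) := fun p => by
    rw [sub, hpr]
    split_ifs with h <;> simp [h]
  rw [hr _ fun x he => by simp [sub, hpr' x he],
    core h2 h3 hs hc fun p => sub π z (rail p) = true]
  constructor
  · rintro ⟨g, α, k1, k2⟩
    exact ⟨g, hR _ _ (fun i => (hx _).1 (k1 i)) k2⟩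
  · rintro ⟨g, hg⟩
    exact ⟨g, _, fun i => (hx _).2 id, hg⟩

end Pool.Agent.MP_6b3410_lc.N91
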