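import Pool.Agent.MP_6b3410_lc.N91.Spec

/-!
Row Net: the formula with guesses, hit bounds and a barrel shifter.
-/

namespace Pool.Agent.MP_6b3410_lc.N91

open Classical Finset

namespace NetR

/-- the variables: guesses, hit bounds, shift bits, layers -/
abbrev YY (n v m u D l : ℕ) : Type :=
  (Fin v × Fin m) ⊕ Fin n ⊕ Fin l ⊕ (Bool × Fin (l + 1) × Fin u × ZMod D)

/-- the clauses -/
abbrev KK (n v u D l : ℕ) : Type :=
  Fin v ⊕ Fin n ⊕ (Bool × Fin n × Bool) ⊕ (Bool × Fin l × Fin u × ZMod D × Bool)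

variable {n v m u D l : ℕ}

/-- guess variable -/
def yG (w : Fin v) (e : Fin m) : YY n v m u D l := Sum.inl (w, e)

/-- hit bound variable -/
def yA (i : Fin n) : YY n v m u D l := Sum.inr (Sum.inl i)

/-- shift bit -/
def yB (j : Fin l) : YY n v m u D l := Sum.inr (Sum.inr (Sum.inl j))

/-- layer variable -/
def yL (s : Bool) (j : Fin (l + 1)) (p : Fin u × ZMod D) : YY n v m u D l :=
  Sum.inr (Sum.inr (Sum.inr (s, j, p)))

/-- the literals of the clauses -/
noncomputable def cls (N : Fin n → Finset (Fin v)) (a : Fin n → Fin v → Fin m)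
    (c : Bool → Fin n × Bool → Fin u × ZMod D) :
    KK n v u D l → Finset (YY n v m u D l × Bool)
  | .inl w => univ.image fun e => (yG w e, true)
  | .inr (.inl i) => insert (yA i, true) ((N i).image fun w => (yG w (a i w), false))
  | .inr (.inr (.inl q)) => {(yA q.2.1, !q.2.2), (yL q.1 0 (c q.1 q.2), true)}
  | .inr (.inr (.inr q)) =>
      {(yL q.1 q.2.1.castSucc (q.2.2.1, q.2.2.2.1), false), (yB q.2.1, !q.2.2.2.2),
        (yL q.1 q.2.1.succ
          (q.2.2.1, q.2.2.2.1 + if q.2.2.2.2 = true then 2 ^ (q.2.1 : ℕ) else 0), true)}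

theorem count [NeZero D] (N : Fin n → Finset (Fin v)) (a : Fin n → Fin v → Fin m)
    (c : Bool → Fin n × Bool → Fin u × ZMod D) (hN : ∀ i, (N i).card ≤ 12)
    (hvm : v * m ≤ n) (hv : v ≤ n) :
    2 * Fintype.card (YY n v m u D l) + ∑ κ, (cls (l := l) N a c κ).card +
      Fintype.card (KK n v u D l) ≤ 32 * n + 2 * l + 20 * (l + 1) * (u * D) := by
  have h1 : ∑ w : Fin v, (cls (l := l) N a c (.inl w)).card ≤ v * m := by
    refine (Finset.sum_le_card_nsmul _ _ m fun w _ => ?_).trans (by simp)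
    exact Finset.card_image_le.trans (by simp)
  have h2 : ∑ i : Fin n, (cls (l := l) N a c (.inr (.inl i))).card ≤ n * 13 := by
    refine (Finset.sum_le_card_nsmul _ _ 13 fun i _ => ?_).trans (by simp)
    refine (Finset.card_insert_le _ _).trans ?_
    have := (Finset.card_image_le (s := N i)
      (f := fun w => ((yG w (a i w) : YY n v m u D l), false))).trans (hN i)
    omega
  have h3 : ∑ q : Bool × Fin n × Bool, (cls (l := l) N a c (.inr (.inr (.inl q)))).card ≤
      2 * (n * 2) * 2 := by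
    refine (Finset.sum_le_card_nsmul _ _ 2 fun q _ => ?_).trans (by simp)
    exact Finset.card_le_two
  have h4 : ∑ q : Bool × Fin l × Fin u × ZMod D × Bool,
      (cls (l := l) N a c (.inr (.inr (.inr q)))).card ≤ 2 * (l * (u * (D * 2))) * 3 := by
    refine (Finset.sum_le_card_nsmul _ _ 3 fun q _ => ?_).trans (by simp [ZMod.card])
    exact Finset.card_le_three
  have hY : Fintype.card (YY n v m u D l) = v * m + (n + (l + 2 * ((l + 1) * (u * D)))) := by
    simp [ZMod.card]
  have hK : Fintype.card (KK n v u D l) =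
      v + (n + (2 * (n * 2) + 2 * (l * (u * (D * 2))))) := by
    simp [ZMod.card]
  rw [Fintype.sum_sum_type, Fintype.sum_sum_type, Fintype.sum_sum_type, hY, hK]
  have e1 : l * (u * (D * 2)) = 2 * (l * (u * D)) := by ring
  have e2 : (l + 1) * (u * D) = l * (u * D) + u * D := by ring
  have e3 : 20 * (l + 1) * (u * D) = 20 * (l * (u * D)) + 20 * (u * D) := by ring
  rw [e1] at h4
  rw [e1, e2, e3]
  omega

theorem sound (N : Fin n → Finset (Fin v)) (a : Fin n → Fin v → Fin m)
    (c : Bool → Fin n × Bool → Fin u × ZMod D) (y : YY n v m u D l → Bool)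
    (hy : Sat (cls N a c) y) : ∃ (z : ZMod D) (α : Fin n → Bool),
      (∃ x, ∀ i, H91.Hit N a i x → α i = true) ∧
      ∀ s i, y (yL s (Fin.last l) ((c s (i, α i)).1, z + (c s (i, α i)).2)) = true := by
  have hG : ∀ w : Fin v, ∃ e : Fin m, y (yG w e) = true := by
    intro w
    obtain ⟨t, ht, h⟩ := hy (.inl w)
    obtain ⟨e, -, rfl⟩ := Finset.mem_image.1 ht
    exact ⟨e, h⟩
  choose x hx using hG
  have hL : ∀ j : Fin (l + 1), ∃ z : ZMod D, ∀ s i,
      y (yL s j ((c s (i, y (yA i))).1, z + (c s (i, y (yA i))).2)) = true := by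
    intro j
    induction j using Fin.induction with
    | zero =>
      refine ⟨0, fun s i => ?_⟩
      obtain ⟨t, ht, h⟩ := hy (.inr (.inr (.inl (s, i, y (yA i)))))
      rcases Finset.mem_insert.1 ht with rfl | ht
      · simp at h
      · obtain rfl := Finset.mem_singleton.1 ht
        simpa using h
    | succ j ih =>
      obtain ⟨z, hz⟩ := ih
      refine ⟨z + if y (yB j) = true then 2 ^ (j : ℕ) else 0, fun s i => ?_⟩
      obtain ⟨t, ht, h⟩ := hy (.inr (.inr (.inr
        (s, j, (c s (i, y (yA i))).1, z + (c s (i, y (yA i))).2, y (yB j)))))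
      rcases Finset.mem_insert.1 ht with rfl | ht
      · have h' := hz s i
        dsimp only at h
        rw [h] at h'
        exact absurd h' (by simp)
      · rcases Finset.mem_insert.1 ht with rfl | ht
        · simp at h
        · obtain rfl := Finset.mem_singleton.1 ht
          dsimp only at h
          rw [add_right_comm z]
          exact h
  obtain ⟨z, hz⟩ := hL (Fin.last l)
  refine ⟨z, fun i => y (yA i), ⟨x, fun i hi => ?_⟩, hz⟩
  obtain ⟨t, ht, h⟩ := hy (.inr (.inl i))
  rcases Finset.mem_insert.1 ht with rfl | ht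
  · exact h
  · obtain ⟨w, hw, rfl⟩ := Finset.mem_image.1 ht
    have h1 := hx w
    rw [hi w hw] at h1
    dsimp only at h
    rw [h] at h1
    exact absurd h1 (by simp)

theorem step (D k j : ℕ) : ((k % 2 ^ (j + 1) : ℕ) : ZMod D) =
    ((k % 2 ^ j : ℕ) : ZMod D) + if decide (k / 2 ^ j % 2 = 1) = true then 2 ^ j else 0 := by
  rw [Nat.mod_pow_succ]
  rcases Nat.mod_two_eq_zero_or_one (k / 2 ^ j) with h | h
  · simp [h]
  · simp [h]

theorem complete [NeZero D] (N : Fin n → Finset (Fin v)) (a : Fin n → Fin v → Fin m)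
    (c : Bool → Fin n × Bool → Fin u × ZMod D) (hD : D ≤ 2 ^ l) (z : ZMod D)
    (α : Fin n → Bool) (x : Fin v → Fin m) (hx : ∀ i, H91.Hit N a i x → α i = true) :
    ∃ y : YY n v m u D l → Bool, Sat (cls N a c) y ∧
      ∀ s p, y (yL s (Fin.last l) p) = true →
        ∃ i, p = ((c s (i, α i)).1, z + (c s (i, α i)).2) := by
  refine ⟨Sum.elim (fun q => decide (x q.1 = q.2)) (Sum.elim α (Sum.elim
    (fun j => decide (z.val / 2 ^ (j : ℕ) % 2 = 1)) fun q => decide (∃ i, q.2.2 =
      ((c q.1 (i, α i)).1, ((z.val % 2 ^ (q.2.1 : ℕ) : ℕ) : ZMod D) + (c q.1 (i, α i)).2)))),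
    ?_, fun s p hp => ?_⟩
  · rintro (w | i | ⟨s, i, b⟩ | ⟨s, j, κ, t, b⟩)
    · exact ⟨(yG w (x w), true), Finset.mem_image.2 ⟨x w, Finset.mem_univ _, rfl⟩,
        by simp [yG]⟩
    · by_cases h : H91.Hit N a i x
      · exact ⟨(yA i, true), Finset.mem_insert_self _ _, hx i h⟩
      · obtain ⟨w, hw⟩ := not_forall.1 h
        obtain ⟨hw, hne⟩ := Classical.not_imp.1 hw
        exact ⟨(yG w (a i w), false),
          Finset.mem_insert_of_mem (Finset.mem_image.2 ⟨w, hw, rfl⟩), by simp [yG, hne]⟩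
    · by_cases h : α i = b
      · refine ⟨(yL s 0 (c s (i, b)), true),
          Finset.mem_insert_of_mem (Finset.mem_singleton.2 rfl), ?_⟩
        refine decide_eq_true ⟨i, ?_⟩
        simp [h, Nat.mod_one]
      · refine ⟨(yA i, !b), Finset.mem_insert_self _ _, ?_⟩
        change α i = !b
        cases b <;> simpa using h
    · by_cases h : ∃ i, (κ, t) =
        ((c s (i, α i)).1, ((z.val % 2 ^ (j : ℕ) : ℕ) : ZMod D) + (c s (i, α i)).2)
      · by_cases hb : decide (z.val / 2 ^ (j : ℕ) % 2 = 1) = b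
        · refine ⟨(yL s j.succ (κ, t + if b = true then 2 ^ (j : ℕ) else 0), true),
            Finset.mem_insert_of_mem (Finset.mem_insert_of_mem (Finset.mem_singleton.2 rfl)), ?_⟩
          obtain ⟨i, hi⟩ := h
          refine decide_eq_true ⟨i, ?_⟩
          obtain ⟨h1, h2⟩ := Prod.ext_iff.1 hi
          dsimp only at h1 h2 ⊢
          rw [Fin.val_succ, step, hb, h1, h2, add_right_comm]
        · refine ⟨(yB j, !b), Finset.mem_insert_of_mem (Finset.mem_insert_self _ _), ?_⟩
          change decide (z.val / 2 ^ (j : ℕ) % 2 = 1) = !b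
          cases b <;> simpa using hb
      · exact ⟨(yL s j.castSucc (κ, t), false), Finset.mem_insert_self _ _, decide_eq_false h⟩
  · obtain ⟨i, hi⟩ := of_decide_eq_true hp
    refine ⟨i, ?_⟩
    dsimp only at hi
    rw [hi, Fin.val_last, Nat.mod_eq_of_lt ((ZMod.val_lt z).trans_le hD), ZMod.natCast_zmod_val]

end NetR

theorem net : NetStmt := by
  intro n v m u D l _ N a c hN hvm hv hD
  refine ⟨NetR.YY n v m u D l, NetR.KK n v u D l, inferInstance, inferInstance, NetR.cls N a c,
    fun s p => NetR.yL s (Fin.last l) p, NetR.count N a c hN hvm hv, NetR.sound N a c, ?_⟩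
  rintro z α ⟨x, hx⟩
  exact NetR.complete N a c hD z α x hx

end Pool.Agent.MP_6b3410_lc.N91
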