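import Pool.Agent.MP_6b3410_lc.N91.Spec

/-! Row NumA: the sizes of the gadget. -/

namespace Pool.Agent.MP_6b3410_lc.N91

namespace NumAR

theorem roth (a : ℕ) : (a : ℝ) ≤ rothNumberNat a * Real.exp (4 * √(Real.log a)) := by
  have h := mul_le_mul_of_nonneg_right (Behrend.roth_lower_bound (N := a))
    (Real.exp_pos (4 * √(Real.log a))).le
  rwa [mul_assoc, ← Real.exp_add, neg_mul, neg_add_cancel, Real.exp_zero, mul_one] at h

theorem log_le_exp (a : ℕ) : 1 + 8 * Real.log a ≤ Real.exp (4 * √(Real.log a)) := by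
  have h0 := Real.sqrt_nonneg (Real.log a)
  have h1 := Real.quadratic_le_exp_of_nonneg (x := 4 * √(Real.log a)) (by positivity)
  have h2 := Real.sq_sqrt (Real.log_natCast_nonneg a)
  nlinarith

theorem nat_log (a : ℕ) (ha : 1 ≤ a) : (Nat.log 2 (2 * a) : ℝ) ≤ 1 + 2 * Real.log a := by
  have h1 : ((2 : ℝ)) ^ Nat.log 2 (2 * a) ≤ 2 * a := by
    exact_mod_cast Nat.pow_log_le_self 2 (by omega : 2 * a ≠ 0)
  have ha' : (0 : ℝ) < a := by exact_mod_cast ha
  have h2 := Real.log_le_log (by positivity) h1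
  rw [Real.log_pow, Real.log_mul two_ne_zero ha'.ne'] at h2
  have h3 := Real.log_two_gt_d9
  have h4 := Real.log_natCast_nonneg a
  by_contra h
  nlinarith

theorem sqrt_bd (T a : ℕ) (ha : 1 ≤ a) (hT : a ≤ T) :
    T < a * (Nat.sqrt (T / a) + 1) ^ 2 ∧ a * (Nat.sqrt (T / a) + 1) ^ 2 ≤ 4 * T := by
  have h1 := Nat.lt_succ_sqrt' (T / a)
  have h2 := Nat.sqrt_le' (T / a)
  have h3 : 1 ≤ Nat.sqrt (T / a) := Nat.sqrt_pos.2 (Nat.div_pos hT ha)
  have h4 := Nat.lt_mul_div_succ T ha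
  have h5 := Nat.mul_div_le T a
  refine ⟨h4.trans_le (Nat.mul_le_mul_left a h1), ?_⟩
  have h6 : (Nat.sqrt (T / a) + 1) ^ 2 ≤ 4 * (T / a) := by nlinarith
  calc _ ≤ a * (4 * (T / a)) := Nat.mul_le_mul_left a h6
    _ = 4 * (a * (T / a)) := by ring
    _ ≤ 4 * T := Nat.mul_le_mul_left 4 h5

theorem tot (k l X Q : ℕ) (hk : 1 ≤ k) (hX : k ≤ X) :
    9 * (32 * k + 2 * l + 20 * (l + 1) * (2 * X)) + 54 * Q + 42 * (2 * X * Q) + 3 * k + 9 ≤
      678 * ((l + 1) * X) + 138 * (X * Q) := by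
  have h1 : Q ≤ X * Q := Nat.le_mul_of_pos_left Q (by omega)
  have h2 : l ≤ l * X := Nat.le_mul_of_pos_right l (by omega)
  nlinarith

theorem fin (n k M L X Q E P : ℝ) (hk : 1 ≤ k) (hE : 1 ≤ E) (hM : M ≤ n) (hP : M * P ≤ n ^ 2)
    (hP0 : 0 ≤ P) (h : 6000000 * E ^ 2 * k ≤ M) (hL : L ≤ 3 * E) (hX0 : 0 ≤ X)
    (hX : X ≤ 3 * k * E) (hQ : Q ^ 2 ≤ 4 ∨ k * Q ^ 2 ≤ 8 * P) :
    678 * (L * X) + 138 * (X * Q) ≤ n := by
  have h1 : 1 ≤ E ^ 2 * k := one_le_mul_of_one_le_of_one_le (one_le_pow₀ hE) hk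
  have h2 : L * X ≤ 3 * E * (3 * k * E) := mul_le_mul hL hX hX0 (by positivity)
  have h3 : X ^ 2 ≤ (3 * k * E) ^ 2 := pow_le_pow_left₀ hX0 hX 2
  have hn : 6000000 * (E ^ 2 * k) ≤ n := by linarith
  have h4 : (276 * (X * Q)) ^ 2 ≤ n ^ 2 := by
    have h5 : X ^ 2 * Q ^ 2 ≤ (3 * k * E) ^ 2 * Q ^ 2 :=
      mul_le_mul_of_nonneg_right h3 (sq_nonneg Q)
    rcases hQ with hQ | hQ
    · have h6 : (3 * k * E) ^ 2 * Q ^ 2 ≤ (3 * k * E) ^ 2 * 4 :=
        mul_le_mul_of_nonneg_left hQ (sq_nonneg _)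
      have h7 : (6000000 * (E ^ 2 * k)) ^ 2 ≤ n ^ 2 := pow_le_pow_left₀ (by positivity) hn 2
      have h8 : (k * E) ^ 2 * 1 ≤ (k * E) ^ 2 * E ^ 2 :=
        mul_le_mul_of_nonneg_left (one_le_pow₀ hE) (sq_nonneg _)
      nlinarith [sq_nonneg (k * E)]
    · have h6 : E ^ 2 * k * (k * Q ^ 2) ≤ E ^ 2 * k * (8 * P) :=
        mul_le_mul_of_nonneg_left hQ (by positivity)
      have h7 := mul_le_mul_of_nonneg_right h hP0
      have h8 : 0 ≤ E ^ 2 * k * P := by positivity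
      nlinarith
  have h9 : 276 * (X * Q) ≤ n := (abs_le_of_sq_le_sq' h4 (by linarith)).2
  nlinarith

end NumAR

open NumAR in
theorem numA : NumAStmt := by
  intro n k τ M hk hM hP h
  obtain ⟨a, haT, hak, hc⟩ : ∃ a, a ≤ 2 ^ (τ + 1) ∧ a ≤ k ∧ (a = 2 ^ (τ + 1) ∨ a = k) :=
    ⟨min _ _, min_le_left _ _, min_le_right _ _, min_choice _ _⟩
  have ha : 1 ≤ a := hc.elim (fun e => e ▸ Nat.one_le_two_pow) fun e => e ▸ hk
  have ha' : (0 : ℝ) < a := by exact_mod_cast ha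
  have hk' : (1 : ℝ) ≤ k := by exact_mod_cast hk
  have r1 := roth a
  have r2 := log_le_exp a
  have r3 := nat_log a ha
  have r0 := Real.log_natCast_nonneg a
  have hkM : (k : ℝ) ≤ M := by
    have := Real.one_le_exp (x := 8 * √(min ((τ : ℝ) + 1) (Real.log M))) (by positivity)
    nlinarith
  have hl : Real.log a ≤ min ((τ : ℝ) + 1) (Real.log M) := by
    refine le_min ?_ (Real.log_le_log ha' (le_trans (by exact_mod_cast hak) hkM))
    have h1 : (a : ℝ) ≤ 2 ^ (τ + 1) := by exact_mod_cast haT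
    have h2 := Real.log_le_log ha' h1
    rw [Real.log_pow] at h2
    push_cast at h2
    have h3 := Real.log_two_lt_d9
    have h4 : (0 : ℝ) ≤ τ := Nat.cast_nonneg τ
    nlinarith
  have hE : Real.exp (4 * √(Real.log a)) ^ 2 ≤
      Real.exp (8 * √(min ((τ : ℝ) + 1) (Real.log M))) := by
    rw [← Real.exp_nat_mul]
    refine Real.exp_le_exp.2 ?_
    have := Real.sqrt_le_sqrt hl
    push_cast
    linarith
  have hq := rothNumberNat_le a
  generalize Real.exp (4 * √(Real.log a)) = E at r1 r2 hE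
  generalize hqq : rothNumberNat a = q at r1 hq
  have hq0 : 0 < q := Nat.pos_of_ne_zero fun e => by
    rw [e, Nat.cast_zero, zero_mul] at r1
    exact absurd r1 ha'.not_ge
  have u1 : 2 * k < (2 * k / q + 1) * q := mul_comm q _ ▸ Nat.lt_mul_div_succ _ hq0
  have u2 : (2 * k / q + 1) * q ≤ 3 * k := by
    have := Nat.div_mul_le_self (2 * k) q
    rw [add_mul]
    omega
  obtain ⟨q1, q2⟩ := sqrt_bd _ a ha haT
  refine ⟨a, 2 * k / q + 1, Nat.log 2 (2 * a) + 1, Nat.sqrt (2 ^ (τ + 1) / a) + 1, ha,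
    Nat.le_add_left _ _, hqq ▸ u1.le, (Nat.lt_pow_succ_log_self one_lt_two _).le, ?_, ?_⟩
  · rw [pow_succ 2 τ] at q1 ⊢
    rw [mul_assoc]
    omega
  · generalize 2 * k / q + 1 = u at u1 u2
    generalize Nat.sqrt (2 ^ (τ + 1) / a) + 1 = Q at q1 q2
    have hX : k ≤ u * a := by
      have := Nat.mul_le_mul_left u hq
      omega
    rw [show u * (2 * a) = 2 * (u * a) by ring]
    refine (tot k _ (u * a) Q hk hX).trans ?_
    have u3 : (u : ℝ) * q ≤ 3 * k := by exact_mod_cast u2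
    have key := fin n k M ((Nat.log 2 (2 * a) : ℝ) + 1 + 1) (u * a) Q E (2 ^ τ) hk' (by linarith)
      (by exact_mod_cast hM) (by exact_mod_cast hP) (by positivity) (by nlinarith) (by linarith)
      (by positivity) (by
        have h1 := mul_le_mul_of_nonneg_left r1 (Nat.cast_nonneg (α := ℝ) u)
        have h2 := mul_le_mul_of_nonneg_right u3 (show 0 ≤ E by linarith)
        linarith) (hc.imp (fun e => by
        rw [← e, mul_comm 4 a] at q2
        exact_mod_cast Nat.le_of_mul_le_mul_left q2 ha) fun e => by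
        rw [e, pow_succ 2 τ] at q2
        have : k * Q ^ 2 ≤ 8 * 2 ^ τ := by omega
        exact_mod_cast this)
    exact_mod_cast key

end Pool.Agent.MP_6b3410_lc.N91
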