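import Pool.Agent.MP_6b3410_lc.N91.Spec

/-! Row NumB: the asymptotics. -/

namespace Pool.Agent.MP_6b3410_lc.N91

namespace NumBR

theorem exists_big (C M₀ : ℕ) : ∃ m : ℕ, M₀ ≤ m ∧ 3 ≤ m ∧
    ∀ n : ℕ, m ≤ n → 4 * Real.log n ^ C ≤ n := by
  have h := (Real.isLittleO_pow_log_id_atTop (n := C)).bound (c := 1 / 4) (by norm_num)
  obtain ⟨x, hx⟩ := Filter.eventually_atTop.1 h
  refine ⟨max (max M₀ 3) ⌈x⌉₊, by omega, by omega, fun n hn => ?_⟩
  have h1 := hx n ((Nat.le_ceil x).trans (by exact_mod_cast le_trans (le_max_right _ _) hn))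
  rw [Real.norm_eq_abs, Real.norm_eq_abs, id, Nat.abs_cast] at h1
  linarith [le_abs_self (Real.log n ^ C)]

theorem sqrt_min (τ L : ℝ) (hτ : 0 ≤ τ) (hL : 0 ≤ L) : √(min (τ + 1) L) ≤ √(min τ L) + 1 := by
  have h0 : 0 ≤ min τ L := le_min hτ hL
  rw [Real.sqrt_le_left (by positivity)]
  have h1 : min (τ + 1) L ≤ min τ L + 1 := by
    rw [← min_add_add_right]
    exact min_le_min le_rfl (by linarith)
  nlinarith [Real.sq_sqrt h0, Real.sqrt_nonneg (min τ L)]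

theorem five_le : (5 : ℝ) ≤ Real.exp 2 := by
  have h := Real.exp_one_gt_d9
  have e : Real.exp 2 = Real.exp 1 * Real.exp 1 := by rw [← Real.exp_add]; norm_num
  nlinarith

end NumBR

open NumBR

theorem numB : NumBStmt := by
  intro C M₀
  obtain ⟨m, hm0, hm3, hm⟩ := exists_big C M₀
  refine ⟨C + 8, ⌈Real.exp (80000 * Real.exp 8 + 40000 * (m + 1))⌉₊, fun M τ hM => ?_⟩
  have he8 : 1 ≤ Real.exp 8 := Real.one_le_exp (by norm_num)
  have hM1 : Real.exp (80000 * Real.exp 8 + 40000 * (m + 1)) ≤ M :=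
    (Nat.le_ceil _).trans (by exact_mod_cast hM)
  have hM0 : (0 : ℝ) < M := (Real.exp_pos _).trans_le hM1
  have hL := (Real.le_log_iff_exp_le hM0).2 hM1
  have hm' : (3 : ℝ) ≤ m := by exact_mod_cast hm3
  set L := Real.log M with hLd
  have hL0 : 256 ≤ L := by linarith
  set E := Real.exp (8 * √(min ((τ : ℝ) + 1) L)) with hE
  have hE0 : 1 ≤ E := Real.one_le_exp (by positivity)
  have hs : 16 ≤ √L := Real.le_sqrt_of_sq_le (by linarith)
  have hE1 : E ≤ Real.exp (L / 2) := by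
    refine Real.exp_le_exp.2 ?_
    have h1 : √(min ((τ : ℝ) + 1) L) ≤ √L := Real.sqrt_le_sqrt (min_le_right _ _)
    nlinarith [Real.mul_self_sqrt (show 0 ≤ L by linarith)]
  have hMe : (M : ℝ) = Real.exp (L / 2) * Real.exp (L / 2) := by
    rw [← Real.exp_add, add_halves, hLd, Real.exp_log hM0]
  set y := (M : ℝ) / (20000 * E) with hy
  have hy1 : (m : ℝ) + 1 ≤ y := by
    rw [hy, le_div_iff₀ (by positivity), hMe]
    have h1 : 20000 * ((m : ℝ) + 1) ≤ Real.exp (L / 2) := by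
      linarith [Real.add_one_le_exp (L / 2)]
    calc ((m : ℝ) + 1) * (20000 * E) = 20000 * ((m : ℝ) + 1) * E := by ring
      _ ≤ _ := mul_le_mul h1 hE1 (by positivity) (by positivity)
  have hf1 : (⌊y⌋₊ : ℝ) ≤ y := Nat.floor_le (by linarith)
  have hf2 : y < ⌊y⌋₊ + 1 := Nat.lt_floor_add_one y
  have hf3 : m ≤ ⌊y⌋₊ := Nat.le_floor (by linarith)
  have hyM : y ≤ M := div_le_self hM0.le (by linarith)
  have hl0 : 0 < Real.log (⌊y⌋₊ : ℝ) := Real.log_pos (by linarith)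
  have hl1 : Real.log (⌊y⌋₊ : ℝ) ≤ L := Real.log_le_log (by linarith) (hf1.trans hyM)
  refine ⟨⌊y⌋₊, hm0.trans hf3, ?_, ?_⟩
  · rw [mul_comm, ← le_div_iff₀ (by positivity)]
    exact hf1
  · have hB4 : 4 ≤ (⌊y⌋₊ : ℝ) / Real.log (⌊y⌋₊ : ℝ) ^ C := by
      rw [le_div_iff₀ (pow_pos hl0 C)]
      exact hm _ hf3
    have hLC : 0 < L ^ C := pow_pos (by linarith) C
    have hB : y / 2 / L ^ C ≤ (⌊y⌋₊ : ℝ) / Real.log (⌊y⌋₊ : ℝ) ^ C :=
      div_le_div₀ (by positivity) (by linarith) (pow_pos hl0 C) (pow_le_pow_left₀ hl0.le hl1 C)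
    have hE2 : E ≤ Real.exp 8 * Real.exp (((C + 8 : ℕ) : ℝ) * √(min (τ : ℝ) L)) := by
      rw [← Real.exp_add]
      refine Real.exp_le_exp.2 ?_
      have h1 := sqrt_min τ L (Nat.cast_nonneg τ) (by linarith)
      have h2 : 0 ≤ (C : ℝ) * √(min (τ : ℝ) L) := by positivity
      push_cast
      linarith
    have hL8 : 80000 * Real.exp 8 ≤ L ^ 8 :=
      le_trans (by linarith) (le_self_pow₀ (by linarith) (by norm_num))
    have hA : (M : ℝ) / (Real.exp (((C + 8 : ℕ) : ℝ) * √(min (τ : ℝ) L)) * L ^ (C + 8)) ≤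
        y / 4 / L ^ C := by
      rw [hy, div_div, div_div]
      refine div_le_div_of_nonneg_left hM0.le (by positivity) ?_
      calc 20000 * E * (4 * L ^ C) = 80000 * E * L ^ C := by ring
        _ ≤ 80000 * (Real.exp 8 * Real.exp (((C + 8 : ℕ) : ℝ) * √(min (τ : ℝ) L))) * L ^ C := by
          gcongr
        _ = Real.exp (((C + 8 : ℕ) : ℝ) * √(min (τ : ℝ) L)) * (L ^ C * (80000 * Real.exp 8)) := by
          ring
        _ ≤ _ := by rw [pow_add]; gcongr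
    have e : y / 4 / L ^ C = y / 2 / L ^ C / 2 := by ring
    calc _ ≤ Real.exp 2 * Real.exp ((⌊y⌋₊ : ℝ) / Real.log (⌊y⌋₊ : ℝ) ^ C - 2) :=
          mul_le_mul five_le (Real.exp_le_exp.2 (by linarith)) (by positivity) (by positivity)
      _ = _ := by rw [← Real.exp_add]; congr 1; ring

end Pool.Agent.MP_6b3410_lc.N91
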